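import Pool.Agent.H16.Hs

set_option autoImplicit false

namespace Pool.Agent.Results.MP_28d764_an.Chaos

open Filter Topology Pool.Agent.H16.Hs

/-- Index `i` stands for `x_{i-2}`. -/
theorem result : ∃ α γ δ C D : ℝ, 0 < α ∧ 0 < γ ∧ 0 < δ ∧ 0 < C ∧ 0 < D ∧
    ∃ x : ℕ → ℝ, (∀ n, 0 < x n) ∧
    (∀ n, x (n + 3) = (α + x (n + 2) + γ * x (n + 1) + δ * x n) /
      (x (n + 2) + C * x (n + 1) + D * x n)) ∧
    (∀ e : ℝ, ¬ Tendsto x atTop (𝓝 e)) ∧
    ∀ (p : ℕ → ℝ) (k : ℕ), 1 ≤ k → (∀ n, p (n + k) = p n) →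
      ¬ Tendsto (fun n => x n - p n) atTop (𝓝 0) := by
  obtain ⟨ε, e0, e1, H⟩ := horse'
  obtain ⟨z, η, η0, z0, z1, z2⟩ := H
    (fun a b c => (ε ^ 3 + ε * c + ε * (ε ^ 6 * b) + a) / (c + ε ^ 6 * b + ε ^ 6 * a))
    (by fun_prop (disch := exact fun _ ⟨_, _, _⟩ => by positivity))
    (fun a _ b _ c _ => by positivity) fun a ha b hb c hc => by
      have e2 : 0 < ε ^ 2 := by positivity
      have a0 := e2.trans_le ha.1
      have b0 := e2.trans_le hb.1
      have c0 := e2.trans_le hc.1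
      have h1 : ε ^ 6 * b ≤ c := (mul_le_mul_of_nonneg_left hb.2 (by positivity)).trans
        (le_of_eq_of_le (by field_simp) hc.1)
      have h4 : ε ^ 6 * a ≤ c := (mul_le_mul_of_nonneg_left ha.2 (by positivity)).trans
        (le_of_eq_of_le (by field_simp) hc.1)
      have h2 : ε ^ 3 ≤ ε * c := le_of_eq_of_le (by ring) (mul_le_mul_of_nonneg_left hc.1 e0.le)
      have h3 : 0 < ε * c := by positivity
      have h5 := mul_le_mul_of_nonneg_left h1 e0.le
      have h6 := mul_pos (pow_pos e0 6) b0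
      rw [show ε + a / c = (ε * c + a) / c by field_simp, div_div, ← mul_div_assoc]
      constructor <;> gcongr
      · linarith [pow_pos e0 3, mul_pos e0 h6]
      · linarith
      · linarith
      · linarith [mul_pos (pow_pos e0 6) a0]
  have zp : ∀ n, 0 < z n := fun n => (by positivity : 0 < ε ^ 2).trans_le (z1 n).1
  have key := np (x := fun n => z n / ε) (η := η / ε) (by positivity)
    fun k hk N => (z2 k hk N).imp fun n ⟨a, b⟩ => ⟨a, 46, by
      refine le_trans ?_ (le_abs_self _)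
      rw [← sub_div]; gcongr⟩
  refine ⟨ε, ε ^ 6, 1 / ε, ε ^ 6, ε ^ 6, e0, by positivity, by positivity, by positivity,
    by positivity, fun n => z n / ε, fun n => div_pos (zp n) e0, fun n => ?_,
    fun e h => key (fun _ => _) 1 le_rfl (fun _ => rfl) (tendsto_sub_nhds_zero_iff.2 h), key⟩
  have := zp n
  have := zp (n + 1)
  have := zp (n + 2)
  simp only [z0]; field_simp

end Pool.Agent.Results.MP_28d764_an.Chaos
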